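import Pool.Agent.Q143.DN.Grow
import Mathlib.Algebra.MvPolynomial.Division
import Mathlib.RingTheory.Ideal.Quotient.Operations
import Mathlib.Algebra.Polynomial.AlgebraMap
import Mathlib.Tactic.LinearCombination

/-!
# Automorphisms of the surfaces `x y = P(z)`
-/

set_option autoImplicit false
set_option linter.unusedSectionVars false
set_option linter.unusedVariables false

namespace Pool.Agent.Q143.DN

open Pool.Agent.Y462.SS Pool.Agent.Q152.WP

/-- the ideal of the surface `x y = P(z)` -/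
noncomputable def idl (K : Type) [Field K] (P : Polynomial K) : Ideal (MvPolynomial (Fin 3) K) :=
  Ideal.span {MvPolynomial.X 0 * MvPolynomial.X 1 - Polynomial.aeval (MvPolynomial.X 2) P}

/-- the coordinate ring `K[x, y, z] / (x y - P(z))` -/
def Dan (K : Type) [Field K] (P : Polynomial K) : Type := MvPolynomial (Fin 3) K ⧸ idl K P

variable {K : Type} [Field K] {P : Polynomial K}

noncomputable instance : CommRing (Dan K P) :=
  inferInstanceAs (CommRing (MvPolynomial (Fin 3) K ⧸ idl K P))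

noncomputable instance : Algebra K (Dan K P) :=
  inferInstanceAs (Algebra K (MvPolynomial (Fin 3) K ⧸ idl K P))

variable (K P) in
/-- the projection -/
noncomputable def mkD : MvPolynomial (Fin 3) K →ₐ[K] Dan K P := Ideal.Quotient.mkₐ K (idl K P)

variable (K P) in
/-- the coordinates -/
noncomputable def co (a : Fin 3) : Dan K P := mkD K P (MvPolynomial.X a)

variable (K P) in
/-- the constants -/
noncomputable def kk (l : K) : Dan K P := algebraMap K (Dan K P) l

theorem mkD_eq {p q : MvPolynomial (Fin 3) K} : mkD K P p = mkD K P q ↔ p - q ∈ idl K P :=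
  Ideal.Quotient.eq

theorem mkD_surj : Function.Surjective (mkD K P) := Ideal.Quotient.mk_surjective

theorem rel : co K P 0 * co K P 1 = Polynomial.aeval (co K P 2) P := by
  unfold co
  rw [Polynomial.aeval_algHom_apply, ← map_mul, mkD_eq]
  exact Ideal.subset_span rfl

theorem hom_ext {A : Type} [CommRing A] [Algebra K A] {f g : Dan K P →ₐ[K] A}
    (h : ∀ a, f (co K P a) = g (co K P a)) : f = g := by
  have h1 : f.comp (mkD K P) = g.comp (mkD K P) := MvPolynomial.algHom_ext h
  ext1 x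
  obtain ⟨p, rfl⟩ := mkD_surj x
  exact congrArg (fun f => f p) h1

/-- the universal property -/
noncomputable def dl {A : Type} [CommRing A] [Algebra K A] (s : Fin 3 → A)
    (h : s 0 * s 1 = Polynomial.aeval (s 2) P) : Dan K P →ₐ[K] A :=
  Ideal.Quotient.liftₐ (idl K P) (MvPolynomial.aeval s) (by
    intro p hp
    rw [idl, Ideal.mem_span_singleton] at hp
    obtain ⟨q, rfl⟩ := hp
    rw [map_mul, map_sub, map_mul, MvPolynomial.aeval_X, MvPolynomial.aeval_X,
      ← Polynomial.aeval_algHom_apply, MvPolynomial.aeval_X, h, sub_self, zero_mul])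

theorem dl_co {A : Type} [CommRing A] [Algebra K A] (s : Fin 3 → A)
    (h : s 0 * s 1 = Polynomial.aeval (s 2) P) (a : Fin 3) : dl s h (co K P a) = s a := by
  change MvPolynomial.aeval s (MvPolynomial.X a) = s a
  rw [MvPolynomial.aeval_X]

/-- `x` is not a zero divisor -/
theorem reg (hP : P ≠ 0) (f : Dan K P) (hf : co K P 0 * f = 0) : f = 0 := by
  obtain ⟨p, rfl⟩ := mkD_surj f
  unfold co at hf
  rw [← map_mul, ← map_zero (mkD K P), mkD_eq, sub_zero, idl, Ideal.mem_span_singleton] at hf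
  obtain ⟨h, hh⟩ := hf
  have h1 : (MvPolynomial.X 0 : MvPolynomial (Fin 3) K) ∣ (MvPolynomial.X 0 * MvPolynomial.X 1 -
    Polynomial.aeval (MvPolynomial.X 2) P : MvPolynomial (Fin 3) K) * h := ⟨p, hh.symm⟩
  rcases (MvPolynomial.X_prime (R := K) (i := (0 : Fin 3))).dvd_or_dvd h1 with h2 | h2
  · exfalso
    obtain ⟨q, hq⟩ := h2
    have h3 := congrArg (MvPolynomial.aeval (![0, 0, Polynomial.X] : Fin 3 → Polynomial K)) hq
    rw [map_sub, map_mul, map_mul, ← Polynomial.aeval_algHom_apply, MvPolynomial.aeval_X,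
      MvPolynomial.aeval_X, MvPolynomial.aeval_X] at h3
    simp at h3
    exact hP h3
  · obtain ⟨q, rfl⟩ := h2
    rw [← map_zero (mkD K P), mkD_eq, sub_zero, idl, Ideal.mem_span_singleton]
    refine ⟨q, ?_⟩
    apply mul_left_cancel₀ (MvPolynomial.X_ne_zero (R := K) (0 : Fin 3))
    rw [hh]
    ring

variable (K P) in
/-- the automorphism group -/
abbrev AD : Type := Dan K P ≃ₐ[K] Dan K P

theorem ext_ad {φ ψ : AD K P} (h : ∀ a, φ (co K P a) = ψ (co K P a)) : φ = ψ := by
  have h1 : (φ : Dan K P →ₐ[K] Dan K P) = ψ := hom_ext h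
  ext x
  exact congrArg (fun f => f x) h1

theorem ext_ad' {φ ψ : AD K P} (h0 : φ (co K P 0) = ψ (co K P 0))
    (h1 : φ (co K P 1) = ψ (co K P 1)) (h2 : φ (co K P 2) = ψ (co K P 2)) : φ = ψ := by
  refine ext_ad (fun a => ?_)
  fin_cases a
  · exact h0
  · exact h1
  · exact h2

theorem mul_ap (φ ψ : AD K P) (x : Dan K P) : (φ * ψ) x = φ (ψ x) := rfl

theorem ap_aeval (φ : AD K P) (x : Dan K P) (Q : Polynomial K) :
    φ (Polynomial.aeval x Q) = Polynomial.aeval (φ x) Q :=
  (Polynomial.aeval_algHom_apply (φ : Dan K P →ₐ[K] Dan K P) x Q).symm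

theorem ap_kk (φ : AD K P) (l : K) : φ (kk K P l) = kk K P l := φ.commutes l

theorem inv_ap {φ : AD K P} {x y : Dan K P} (h : φ x = y) : (φ⁻¹ : AD K P) y = x := by
  rw [← h]
  exact φ.symm_apply_apply x

theorem kk_mul (l m : K) : kk K P l * kk K P m = kk K P (l * m) := (map_mul _ _ _).symm

theorem kk_inv {l : K} (hl : l ≠ 0) : (kk K P l : Dan K P) * kk K P l⁻¹ = 1 := by
  rw [kk_mul, mul_inv_cancel₀ hl, kk, map_one]

variable (K P) in
/-- the automorphisms which fix `x` and map `z` to `z + x g(x)` -/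
def UX : Subgroup (AD K P) where
  carrier := {φ | φ (co K P 0) = co K P 0 ∧
    ∃ g : Polynomial K, φ (co K P 2) = co K P 2 + co K P 0 * Polynomial.aeval (co K P 0) g}
  one_mem' := ⟨rfl, 0, by rw [map_zero, mul_zero, add_zero]; rfl⟩
  mul_mem' := by
    rintro φ ψ ⟨h0, g, h2⟩ ⟨h0', g', h2'⟩
    refine ⟨by rw [mul_ap, h0', h0], g + g', ?_⟩
    rw [mul_ap, h2', map_add, h2, map_mul, ap_aeval, h0, map_add]
    ring
  inv_mem' := by
    rintro φ ⟨h0, g, h2⟩
    refine ⟨inv_ap h0, -g, inv_ap ?_⟩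
    rw [map_add, h2, map_mul, ap_aeval, h0, map_neg]
    ring

variable (K P) in
/-- the automorphisms which fix `y` and map `z` to `z + y g(y)` -/
def UY : Set (AD K P) := {φ | φ (co K P 1) = co K P 1 ∧
    ∃ g : Polynomial K, φ (co K P 2) = co K P 2 + co K P 1 * Polynomial.aeval (co K P 1) g}

/-- the automorphisms `(x, y, z) ↦ (l x, m y, a z + b)` (for `s = false`) and
`(x, y, z) ↦ (l y, m x, a z + b)` (for `s = true`) -/
def IsS (s : Bool) (φ : AD K P) : Prop :=
  ∃ l m a b : K, l ≠ 0 ∧ m ≠ 0 ∧ a ≠ 0 ∧ φ (co K P 0) = kk K P l * co K P (if s then 1 else 0) ∧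
    φ (co K P 1) = kk K P m * co K P (if s then 0 else 1) ∧
    φ (co K P 2) = kk K P a * co K P 2 + kk K P b

theorem isS_mul {s t : Bool} {φ ψ : AD K P} (hφ : IsS s φ) (hψ : IsS t ψ) :
    IsS (xor s t) (φ * ψ) := by
  obtain ⟨l, m, a, b, hl, hm, ha, h0, h1, h2⟩ := hφ
  obtain ⟨l', m', a', b', hl', hm', ha', h0', h1', h2'⟩ := hψ
  have e2 : (φ * ψ) (co K P 2) = kk K P (a' * a) * co K P 2 + kk K P (a' * b + b') := by
    rw [mul_ap, h2', map_add, map_mul, ap_kk, ap_kk, h2, ← kk_mul, kk, kk, kk, kk, kk, map_add,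
      map_mul]
    ring
  cases s <;> cases t
  · refine ⟨l' * l, m' * m, a' * a, _, mul_ne_zero hl' hl, mul_ne_zero hm' hm,
      mul_ne_zero ha' ha, ?_, ?_, e2⟩
    · change (φ * ψ) _ = kk K P (l' * l) * co K P 0
      change ψ _ = kk K P l' * co K P 0 at h0'
      change φ _ = kk K P l * co K P 0 at h0
      rw [mul_ap, h0', map_mul, ap_kk, h0, ← kk_mul, mul_assoc]
    · change (φ * ψ) _ = kk K P (m' * m) * co K P 1
      change ψ _ = kk K P m' * co K P 1 at h1'
      change φ _ = kk K P m * co K P 1 at h1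
      rw [mul_ap, h1', map_mul, ap_kk, h1, ← kk_mul, mul_assoc]
  · refine ⟨l' * m, m' * l, a' * a, _, mul_ne_zero hl' hm, mul_ne_zero hm' hl,
      mul_ne_zero ha' ha, ?_, ?_, e2⟩
    · change (φ * ψ) _ = kk K P (l' * m) * co K P 1
      change ψ _ = kk K P l' * co K P 1 at h0'
      change φ _ = kk K P m * co K P 1 at h1
      rw [mul_ap, h0', map_mul, ap_kk, h1, ← kk_mul, mul_assoc]
    · change (φ * ψ) _ = kk K P (m' * l) * co K P 0
      change ψ _ = kk K P m' * co K P 0 at h1'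
      change φ _ = kk K P l * co K P 0 at h0
      rw [mul_ap, h1', map_mul, ap_kk, h0, ← kk_mul, mul_assoc]
  · refine ⟨l' * l, m' * m, a' * a, _, mul_ne_zero hl' hl, mul_ne_zero hm' hm,
      mul_ne_zero ha' ha, ?_, ?_, e2⟩
    · change (φ * ψ) _ = kk K P (l' * l) * co K P 1
      change ψ _ = kk K P l' * co K P 0 at h0'
      change φ _ = kk K P l * co K P 1 at h0
      rw [mul_ap, h0', map_mul, ap_kk, h0, ← kk_mul, mul_assoc]
    · change (φ * ψ) _ = kk K P (m' * m) * co K P 0
      change ψ _ = kk K P m' * co K P 1 at h1'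
      change φ _ = kk K P m * co K P 0 at h1
      rw [mul_ap, h1', map_mul, ap_kk, h1, ← kk_mul, mul_assoc]
  · refine ⟨l' * m, m' * l, a' * a, _, mul_ne_zero hl' hm, mul_ne_zero hm' hl,
      mul_ne_zero ha' ha, ?_, ?_, e2⟩
    · change (φ * ψ) _ = kk K P (l' * m) * co K P 0
      change ψ _ = kk K P l' * co K P 1 at h0'
      change φ _ = kk K P m * co K P 0 at h1
      rw [mul_ap, h0', map_mul, ap_kk, h1, ← kk_mul, mul_assoc]
    · change (φ * ψ) _ = kk K P (m' * l) * co K P 1
      change ψ _ = kk K P m' * co K P 0 at h1'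
      change φ _ = kk K P l * co K P 1 at h0
      rw [mul_ap, h1', map_mul, ap_kk, h0, ← kk_mul, mul_assoc]

theorem isS_inv {s : Bool} {φ : AD K P} (hφ : IsS s φ) : IsS s (φ⁻¹ : AD K P) := by
  obtain ⟨l, m, a, b, hl, hm, ha, h0, h1, h2⟩ := hφ
  have e2 : (φ⁻¹ : AD K P) (co K P 2) = kk K P a⁻¹ * co K P 2 + kk K P (-(a⁻¹ * b)) := by
    apply inv_ap
    rw [map_add, map_mul, ap_kk, ap_kk, h2]
    have h3 := kk_inv (P := P) ha
    have h4 : (kk K P (-(a⁻¹ * b)) : Dan K P) = -(kk K P a⁻¹ * kk K P b) := by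
      rw [kk, kk, kk, map_neg, map_mul]
    rw [h4]
    linear_combination (co K P 2) * h3
  cases s
  · refine ⟨l⁻¹, m⁻¹, a⁻¹, _, inv_ne_zero hl, inv_ne_zero hm, inv_ne_zero ha, ?_, ?_, e2⟩
    · change _ = kk K P l⁻¹ * co K P 0
      change φ _ = kk K P l * co K P 0 at h0
      apply inv_ap
      rw [map_mul, ap_kk, h0]
      linear_combination (co K P 0) * kk_inv (P := P) hl
    · change _ = kk K P m⁻¹ * co K P 1
      change φ _ = kk K P m * co K P 1 at h1
      apply inv_ap
      rw [map_mul, ap_kk, h1]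
      linear_combination (co K P 1) * kk_inv (P := P) hm
  · refine ⟨m⁻¹, l⁻¹, a⁻¹, _, inv_ne_zero hm, inv_ne_zero hl, inv_ne_zero ha, ?_, ?_, e2⟩
    · change _ = kk K P m⁻¹ * co K P 1
      change φ _ = kk K P m * co K P 0 at h1
      apply inv_ap
      rw [map_mul, ap_kk, h1]
      linear_combination (co K P 0) * kk_inv (P := P) hm
    · change _ = kk K P l⁻¹ * co K P 0
      change φ _ = kk K P l * co K P 1 at h0
      apply inv_ap
      rw [map_mul, ap_kk, h0]
      linear_combination (co K P 1) * kk_inv (P := P) hl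

theorem isS_one : IsS false (1 : AD K P) := by
  refine ⟨1, 1, 1, 0, one_ne_zero, one_ne_zero, one_ne_zero, ?_, ?_, ?_⟩
  · change co K P 0 = kk K P 1 * co K P 0
    rw [kk, map_one, one_mul]
  · change co K P 1 = kk K P 1 * co K P 1
    rw [kk, map_one, one_mul]
  · change co K P 2 = kk K P 1 * co K P 2 + kk K P 0
    rw [kk, kk, map_one, map_zero, one_mul, add_zero]

theorem isS_mul' {φ ψ : AD K P} (hφ : IsS false φ) (hψ : IsS false ψ) : IsS false (φ * ψ) := by
  have h3 := isS_mul hφ hψ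
  have h4 : (false ^^ false) = false := rfl
  rw [h4] at h3
  exact h3

variable (K P) in
/-- the diagonal automorphisms -/
def TD : Subgroup (AD K P) where
  carrier := {φ | IsS false φ}
  one_mem' := isS_one
  mul_mem' := isS_mul'
  inv_mem' := isS_inv

variable (K P) in
/-- the diagonal automorphisms and those that exchange `x` and `y` up to factors -/
def SD : Subgroup (AD K P) where
  carrier := {φ | ∃ s, IsS s φ}
  one_mem' := ⟨false, isS_one⟩
  mul_mem' := fun ⟨_, h⟩ ⟨_, h'⟩ => ⟨_, isS_mul h h'⟩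
  inv_mem' := fun ⟨_, h⟩ => ⟨_, isS_inv h⟩

theorem td_le : TD K P ≤ SD K P := fun _ h => ⟨false, h⟩

theorem isS_of_not {g : AD K P} (hg : g ∈ SD K P) (hg' : g ∉ TD K P) : IsS true g := by
  obtain ⟨s, hs⟩ := hg
  cases s
  · exact absurd hs hg'
  · exact hs

end Pool.Agent.Q143.DN
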