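import Pool.Agent.Q143.DN.Dan
import Mathlib.Algebra.Polynomial.FieldDivision

/-!
# The automorphism groups of the surfaces `x y = P(z)`: the theorem
-/

set_option autoImplicit false
set_option linter.unusedSectionVars false
set_option linter.unusedVariables false
set_option linter.style.haveILetI false

namespace Pool.Agent.Q143.DN

open Pool.Agent.Y462.SS Pool.Agent.Q152.WP

/-- a group is solvable if its commutators are in a solvable subgroup -/
theorem sol_of_comm {G : Type} [Group G] (N : Subgroup G) (hN : Group.IsSolvable N)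
    (h : ∀ a b : G, a * b * a⁻¹ * b⁻¹ ∈ N) : Group.IsSolvable G := by
  have h1 : commutator G ≤ N := by
    rw [commutator_def, Subgroup.commutator_le]
    exact fun a _ b _ => h a b
  haveI := hN
  haveI : Group.IsSolvable (commutator G) :=
    Group.isSolvable_of_isSolvable_injective (f := Subgroup.inclusion h1)
      (Subgroup.inclusion_injective h1)
  refine Group.isSolvable_of_ker_le_range (commutator G).subtype
    (Abelianization.of : G →* Abelianization G) ?_
  rw [Abelianization.ker_of, Subgroup.range_subtype]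

variable {K : Type} [Field K] {P : Polynomial K}

variable (K P) in
/-- translations of `z` -/
def T1 : Subgroup (AD K P) where
  carrier := {φ | φ (co K P 0) = co K P 0 ∧ φ (co K P 1) = co K P 1 ∧
    ∃ b : K, φ (co K P 2) = co K P 2 + kk K P b}
  one_mem' := ⟨rfl, rfl, 0, by rw [kk, map_zero, add_zero]; rfl⟩
  mul_mem' := by
    rintro φ ψ ⟨h0, h1, b, h2⟩ ⟨h0', h1', b', h2'⟩
    refine ⟨by rw [mul_ap, h0', h0], by rw [mul_ap, h1', h1], b + b', ?_⟩
    rw [mul_ap, h2', map_add, h2, ap_kk, kk, kk, kk, map_add, add_assoc]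
  inv_mem' := by
    rintro φ ⟨h0, h1, b, h2⟩
    refine ⟨inv_ap h0, inv_ap h1, -b, inv_ap ?_⟩
    rw [map_add, h2, ap_kk, kk, kk, map_neg]
    ring

theorem t1_sol : Group.IsSolvable (T1 K P) := by
  letI : CommGroup (T1 K P) :=
    { mul_comm := fun φ ψ => by
        obtain ⟨h0, h1, b, h2⟩ := φ.2
        obtain ⟨h0', h1', b', h2'⟩ := ψ.2
        apply Subtype.ext
        change φ.1 * ψ.1 = ψ.1 * φ.1
        refine ext_ad' ?_ ?_ ?_
        · rw [mul_ap, mul_ap, h0', h0, h0']
        · rw [mul_ap, mul_ap, h1', h1, h1']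
        · rw [mul_ap, mul_ap, h2', h2, map_add, map_add, h2, h2', ap_kk, ap_kk]
          ring }
  infer_instance

theorem td_comm {φ ψ : AD K P} (hφ : IsS false φ) (hψ : IsS false ψ) :
    φ * ψ * φ⁻¹ * ψ⁻¹ ∈ T1 K P := by
  obtain ⟨l, m, a, b, hl, hm, ha, h0, h1, h2⟩ := hφ
  obtain ⟨l', m', a', b', hl', hm', ha', h0', h1', h2'⟩ := hψ
  change φ _ = kk K P l * co K P 0 at h0
  change φ _ = kk K P m * co K P 1 at h1
  change ψ _ = kk K P l' * co K P 0 at h0'
  change ψ _ = kk K P m' * co K P 1 at h1'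
  have key : ∀ (x y : Dan K P), ψ (φ x) = y → (φ * ψ * φ⁻¹ * ψ⁻¹) y = φ (ψ x) := by
    intro x y h
    have h3 : φ * ψ * φ⁻¹ * ψ⁻¹ = φ * ψ * (ψ * φ)⁻¹ := by
      group
    rw [h3, mul_ap, inv_ap (φ := ψ * φ) (x := x) (y := y) h, mul_ap]
  have e0 : (φ * ψ * φ⁻¹ * ψ⁻¹) (co K P 0) = co K P 0 := by
    have h3 := key (kk K P (l * l')⁻¹ * co K P 0) (co K P 0) (by
      rw [map_mul, ap_kk, h0, map_mul, map_mul, ap_kk, ap_kk, h0', ← mul_assoc, ← mul_assoc,
        kk_mul, kk_mul]
      have h4 : (l * l')⁻¹ * l * l' = 1 := by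
        field_simp
      rw [h4, kk, map_one, one_mul])
    rw [h3, map_mul, ap_kk, h0', map_mul, map_mul, ap_kk, ap_kk, h0, ← mul_assoc, ← mul_assoc,
      kk_mul, kk_mul]
    have h4 : (l * l')⁻¹ * l' * l = 1 := by
      field_simp
    rw [h4, kk, map_one, one_mul]
  have e1 : (φ * ψ * φ⁻¹ * ψ⁻¹) (co K P 1) = co K P 1 := by
    have h3 := key (kk K P (m * m')⁻¹ * co K P 1) (co K P 1) (by
      rw [map_mul, ap_kk, h1, map_mul, map_mul, ap_kk, ap_kk, h1', ← mul_assoc, ← mul_assoc,
        kk_mul, kk_mul]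
      have h4 : (m * m')⁻¹ * m * m' = 1 := by
        field_simp
      rw [h4, kk, map_one, one_mul])
    rw [h3, map_mul, ap_kk, h1', map_mul, map_mul, ap_kk, ap_kk, h1, ← mul_assoc, ← mul_assoc,
      kk_mul, kk_mul]
    have h4 : (m * m')⁻¹ * m' * m = 1 := by
      field_simp
    rw [h4, kk, map_one, one_mul]
  refine ⟨e0, e1, (a * a')⁻¹ * ((a' * b + b') - (a * b' + b)), ?_⟩
  have h3 := key (kk K P (a * a')⁻¹ * (co K P 2 - kk K P (a * b' + b))) (co K P 2) (by
    rw [map_mul, ap_kk, map_mul, ap_kk, map_sub, map_sub, h2, map_add, map_mul, h2', ap_kk, ap_kk,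
      ap_kk, ap_kk]
    have h4 := kk_inv (P := P) (mul_ne_zero ha ha')
    simp only [kk, map_add, map_mul] at h4 ⊢
    linear_combination (co K P 2) * h4)
  rw [h3, map_mul, ap_kk, map_mul, ap_kk, map_sub, map_sub, h2', map_add, map_mul, h2, ap_kk,
    ap_kk, ap_kk, ap_kk]
  have h4 := kk_inv (P := P) (mul_ne_zero ha ha')
  simp only [kk, map_add, map_mul, map_sub] at h4 ⊢
  linear_combination (co K P 2) * h4

theorem td_sol : Group.IsSolvable (TD K P) := by
  refine sol_of_comm ((T1 K P).subgroupOf (TD K P)) ?_ (fun a b => ?_)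
  · haveI := t1_sol (K := K) (P := P)
    let f : (T1 K P).subgroupOf (TD K P) →* T1 K P :=
      { toFun := fun g => ⟨g.1.1, g.2⟩
        map_one' := rfl
        map_mul' := fun _ _ => rfl }
    refine Group.isSolvable_of_isSolvable_injective (f := f) ?_
    intro g h hgh
    have h1 : (f g).1 = (f h).1 := by rw [hgh]
    exact Subtype.ext (Subtype.ext h1)
  · exact td_comm a.2 b.2

theorem sd_sol : Group.IsSolvable (SD K P) := by
  refine sol_of_comm ((TD K P).subgroupOf (SD K P)) ?_ (fun a b => ?_)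
  · haveI := td_sol (K := K) (P := P)
    let f : (TD K P).subgroupOf (SD K P) →* TD K P :=
      { toFun := fun g => ⟨g.1.1, g.2⟩
        map_one' := rfl
        map_mul' := fun _ _ => rfl }
    refine Group.isSolvable_of_isSolvable_injective (f := f) ?_
    intro g h hgh
    have h1 : (f g).1 = (f h).1 := by rw [hgh]
    exact Subtype.ext (Subtype.ext h1)
  · obtain ⟨s, hs⟩ := a.2
    obtain ⟨t, ht⟩ := b.2
    have h1 := isS_mul (isS_mul (isS_mul hs ht) (isS_inv hs)) (isS_inv ht)
    have h2 : (((s ^^ t) ^^ s) ^^ t) = false := by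
      cases s <;> cases t <;> rfl
    rw [h2] at h1
    exact h1

theorem ux_comm (hP : P ≠ 0) : Group.IsSolvable (UX K P) := by
  letI : CommGroup (UX K P) :=
    { mul_comm := fun φ ψ => by
        obtain ⟨h0, g, h2⟩ := φ.2
        obtain ⟨h0', g', h2'⟩ := ψ.2
        apply Subtype.ext
        change φ.1 * ψ.1 = ψ.1 * φ.1
        have e0 : (φ.1 * ψ.1) (co K P 0) = co K P 0 := by rw [mul_ap, h0', h0]
        have e0' : (ψ.1 * φ.1) (co K P 0) = co K P 0 := by rw [mul_ap, h0, h0']
        have e2 : (φ.1 * ψ.1) (co K P 2) = (ψ.1 * φ.1) (co K P 2) := by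
          rw [mul_ap, mul_ap, h2', h2, map_add, map_add, h2, h2', map_mul, map_mul, ap_aeval,
            ap_aeval, h0, h0']
          ring
        refine ext_ad' (e0.trans e0'.symm) ?_ e2
        have h3 : co K P 0 * ((φ.1 * ψ.1) (co K P 1) - (ψ.1 * φ.1) (co K P 1)) = 0 := by
          have h4 := congrArg (φ.1 * ψ.1) (rel (K := K) (P := P))
          have h5 := congrArg (ψ.1 * φ.1) (rel (K := K) (P := P))
          rw [map_mul, ap_aeval, e0, e2] at h4
          rw [map_mul, ap_aeval, e0'] at h5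
          rw [mul_sub, h4, h5, sub_self]
        exact sub_eq_zero.1 (reg hP _ h3) }
  infer_instance

theorem ux_eq_one (hP : P ≠ 0) {φ : AD K P} (h0 : φ (co K P 0) = co K P 0)
    (h2 : φ (co K P 2) = co K P 2) : φ = 1 := by
  refine ext_ad' h0 ?_ h2
  change φ (co K P 1) = co K P 1
  have h3 : co K P 0 * (φ (co K P 1) - co K P 1) = 0 := by
    have h4 := congrArg φ (rel (K := K) (P := P))
    rw [map_mul, ap_aeval, h0, h2, ← rel] at h4
    rw [mul_sub, h4, sub_self]
  exact sub_eq_zero.1 (reg hP _ h3)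

theorem ux_conj {b u : AD K P} (hb : b ∈ TD K P) (hu : u ∈ UX K P) : b * u * b⁻¹ ∈ UX K P := by
  obtain ⟨l, m, a, c, hl, hm, ha, h0, h1, h2⟩ := hb
  obtain ⟨l', m', a', c', hl', hm', ha', h0', h1', h2'⟩ :=
    isS_inv (s := false) ⟨l, m, a, c, hl, hm, ha, h0, h1, h2⟩
  obtain ⟨u0, g, u2⟩ := hu
  change b _ = kk K P l * co K P 0 at h0
  change (b⁻¹ : AD K P) _ = kk K P l' * co K P 0 at h0'
  have e0 : ∀ x, b ((b⁻¹ : AD K P) x) = x := fun x => b.apply_symm_apply x
  have hx := e0 (co K P 0)
  rw [h0', map_mul, ap_kk] at hx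
  have hz := e0 (co K P 2)
  rw [h2', map_add, map_mul, ap_kk, ap_kk] at hz
  refine ⟨?_, Polynomial.C (a' * l) * g.comp (Polynomial.C l * Polynomial.X), ?_⟩
  · rw [mul_ap, mul_ap, h0', map_mul, ap_kk, u0, map_mul, ap_kk, hx]
  · rw [mul_ap, mul_ap, h2', map_add, map_mul, ap_kk, ap_kk, u2, map_add, map_mul, ap_kk, ap_kk,
      map_add, map_mul, ap_aeval, h0]
    have h3 : Polynomial.aeval (co K P 0) (Polynomial.C (a' * l) *
        g.comp (Polynomial.C l * Polynomial.X)) =
        kk K P (a' * l) * Polynomial.aeval (kk K P l * co K P 0) g := by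
      have h5 : Polynomial.aeval (co K P 0) (Polynomial.C l * Polynomial.X) =
          kk K P l * co K P 0 := by
        rw [map_mul, Polynomial.aeval_C, Polynomial.aeval_X]
        rfl
      rw [map_mul, Polynomial.aeval_C, Polynomial.aeval_comp, h5]
      rfl
    rw [h3, ← kk_mul]
    linear_combination hz

/-- the points with values in `K[t]` -/
abbrev Pt (K : Type) [Field K] (P : Polynomial K) : Type := Dan K P →ₐ[K] Polynomial K

/-- the action on the points -/
noncomputable def actP : AD K P →* Equiv.Perm (Pt K P) where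
  toFun φ :=
    { toFun := fun p => p.comp ((φ⁻¹ : AD K P) : Dan K P →ₐ[K] Dan K P)
      invFun := fun p => p.comp (φ : Dan K P →ₐ[K] Dan K P)
      left_inv := fun p => by
        ext1 x
        exact congrArg p (φ.symm_apply_apply x)
      right_inv := fun p => by
        ext1 x
        exact congrArg p (φ.apply_symm_apply x) }
  map_one' := rfl
  map_mul' φ ψ := by
    ext1 p
    ext1 x
    change p ((φ * ψ)⁻¹ x) = p (ψ⁻¹ (φ⁻¹ x))
    rw [mul_inv_rev]
    rfl

theorem actP_apply (φ : AD K P) (p : Pt K P) (x : Dan K P) :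
    actP φ p x = p ((φ⁻¹ : AD K P) x) := rfl

/-- degrees of the coordinates -/
noncomputable def dg (p : Pt K P) (a : Fin 3) : ℕ := (p (co K P a)).natDegree

theorem dg_isS {s : Bool} {g : AD K P} (hg : IsS s g) (p : Pt K P) :
    dg (actP g p) 0 = dg p (if s then 1 else 0) ∧ dg (actP g p) 1 = dg p (if s then 0 else 1) := by
  obtain ⟨l, m, a, b, hl, hm, ha, h0, h1, h2⟩ := isS_inv hg
  have h3 : ∀ (c : K) (hc : c ≠ 0) (x : Dan K P),
      (p (kk K P c * x)).natDegree = (p x).natDegree := by
    intro c hc x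
    rw [map_mul, kk, AlgHom.commutes]
    exact Polynomial.natDegree_C_mul hc
  refine ⟨?_, ?_⟩
  · unfold dg
    rw [actP_apply, h0, h3 l hl]
  · unfold dg
    rw [actP_apply, h1, h3 m hm]

theorem ptrel (p : Pt K P) : p (co K P 0) * p (co K P 1) = P.comp (p (co K P 2)) := by
  have h := congrArg p (rel (K := K) (P := P))
  rw [map_mul, ← Polynomial.aeval_algHom_apply] at h
  exact h

theorem dg_ux (hP : 3 ≤ P.natDegree) {u : AD K P} (hu : u ∈ UX K P) (hu1 : u ≠ 1) (q : Pt K P)
    (hq : dg q 1 < dg q 0) : dg (actP u q) 0 = dg q 0 ∧ dg q 0 < dg (actP u q) 1 := by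
  have hP0 : P ≠ 0 := by
    rintro rfl
    rw [Polynomial.natDegree_zero] at hP
    omega
  obtain ⟨u0, g, u2⟩ := inv_mem hu
  have hg : g ≠ 0 := by
    rintro rfl
    rw [map_zero, mul_zero, add_zero] at u2
    apply hu1
    have h3 := ux_eq_one hP0 u0 u2
    rw [← inv_inv u, h3, inv_one]
  have e0 : (actP u q) (co K P 0) = q (co K P 0) := by rw [actP_apply, u0]
  have e2 : (actP u q) (co K P 2) = q (co K P 2) + q (co K P 0) * g.comp (q (co K P 0)) := by
    rw [actP_apply, u2, map_add, map_mul, ← Polynomial.aeval_algHom_apply]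
    rfl
  have r := ptrel q
  have r' := ptrel (actP u q)
  rw [e0] at r'
  unfold dg at hq ⊢
  rw [e0]
  refine ⟨rfl, ?_⟩
  set X := q (co K P 0) with hX
  set Y := q (co K P 1) with hY
  set Z := q (co K P 2) with hZ
  set Y' := (actP u q) (co K P 1) with hY'
  set Z' := (actP u q) (co K P 2) with hZ'
  have hX0 : X ≠ 0 := by
    intro h
    rw [h, Polynomial.natDegree_zero] at hq
    omega
  have hZd : Z.natDegree < X.natDegree := by
    have h1 : (P.comp Z).natDegree = P.natDegree * Z.natDegree := Polynomial.natDegree_comp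
    have h3 : (X * Y).natDegree ≤ X.natDegree + Y.natDegree := Polynomial.natDegree_mul_le
    rw [r, h1] at h3
    nlinarith
  have hgc : g.comp X ≠ 0 := by
    intro h
    rw [Polynomial.comp_eq_zero_iff] at h
    rcases h with h | ⟨-, h⟩
    · exact hg h
    · rw [h, Polynomial.natDegree_C] at hq
      omega
  have h4 : (X * g.comp X).natDegree = X.natDegree + g.natDegree * X.natDegree := by
    rw [Polynomial.natDegree_mul hX0 hgc, Polynomial.natDegree_comp]
  have h5 : Z'.natDegree = X.natDegree + g.natDegree * X.natDegree := by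
    rw [e2, Polynomial.natDegree_add_eq_right_of_natDegree_lt, h4]
    rw [h4]
    nlinarith [Nat.zero_le (g.natDegree * X.natDegree)]
  have h6 : (P.comp Z').natDegree = P.natDegree * Z'.natDegree := Polynomial.natDegree_comp
  have h7 : 3 * X.natDegree ≤ P.natDegree * Z'.natDegree := by
    rw [h5]
    nlinarith [Nat.zero_le (g.natDegree * X.natDegree)]
  have hY0 : Y' ≠ 0 := by
    intro h
    rw [h, mul_zero] at r'
    rw [← r', Polynomial.natDegree_zero] at h6
    omega
  have h8 : (X * Y').natDegree = X.natDegree + Y'.natDegree := Polynomial.natDegree_mul hX0 hY0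
  rw [r', h6] at h8
  omega

theorem rel' : (![co K P 1, co K P 0, co K P 2] : Fin 3 → Dan K P) 0 *
    (![co K P 1, co K P 0, co K P 2] : Fin 3 → Dan K P) 1 =
    Polynomial.aeval ((![co K P 1, co K P 0, co K P 2] : Fin 3 → Dan K P) 2) P := by
  change co K P 1 * co K P 0 = Polynomial.aeval (co K P 2) P
  rw [mul_comm, rel]

/-- the exchange of `x` and `y` -/
noncomputable def tau : AD K P :=
  AlgEquiv.ofAlgHom
    (dl ![co K P 1, co K P 0, co K P 2] rel') (dl ![co K P 1, co K P 0, co K P 2] rel')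
    (by
      refine hom_ext (fun a => ?_)
      rw [AlgHom.comp_apply, dl_co]
      fin_cases a
      · exact dl_co _ _ 1
      · exact dl_co _ _ 0
      · exact dl_co _ _ 2)
    (by
      refine hom_ext (fun a => ?_)
      rw [AlgHom.comp_apply, dl_co]
      fin_cases a
      · exact dl_co _ _ 1
      · exact dl_co _ _ 0
      · exact dl_co _ _ 2)

theorem tau_0 : (tau : AD K P) (co K P 0) = co K P 1 := dl_co _ rel' 0
theorem tau_1 : (tau : AD K P) (co K P 1) = co K P 0 := dl_co _ rel' 1
theorem tau_2 : (tau : AD K P) (co K P 2) = co K P 2 := dl_co _ rel' 2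

theorem tau_isS : IsS true (tau : AD K P) := by
  refine ⟨1, 1, 1, 0, one_ne_zero, one_ne_zero, one_ne_zero, ?_, ?_, ?_⟩
  · rw [tau_0, kk, map_one, one_mul]
    rfl
  · rw [tau_1, kk, map_one, one_mul]
    rfl
  · rw [tau_2, kk, kk, map_one, map_zero, one_mul, add_zero]

/-- a point -/
noncomputable def p0 : Pt K P :=
  dl ![1, P, Polynomial.X] (by
    change (1 : Polynomial K) * P = Polynomial.aeval (Polynomial.X : Polynomial K) P
    rw [one_mul, Polynomial.aeval_X_left_apply])

theorem dg_p0 (hP : 3 ≤ P.natDegree) : dg (p0 : Pt K P) 0 < dg (p0 : Pt K P) 1 := by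
  unfold dg p0
  rw [dl_co, dl_co]
  change (1 : Polynomial K).natDegree < P.natDegree
  rw [Polynomial.natDegree_one]
  omega

variable (K P) in
/-- the group generated by the diagonal automorphisms, the exchange of `x` and `y`, and the
automorphisms which fix `x` and map `z` to `z + x g(x)`, or fix `y` and map `z` to `z + y g(y)` -/
noncomputable def Tame : Subgroup (AD K P) :=
  Subgroup.closure ((SD K P : Set (AD K P)) ∪ (UX K P : Set (AD K P)) ∪ UY K P)

theorem tame_le : Tame K P ≤ Subgroup.closure ((SD K P : Set (AD K P)) ∪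
    (UX K P : Set (AD K P))) := by
  refine (Subgroup.closure_le _).2 ?_
  rintro φ (h | ⟨h1, g, h2⟩)
  · exact Subgroup.subset_closure h
  · have ht : (tau : AD K P) ∈ Subgroup.closure ((SD K P : Set (AD K P)) ∪
        (UX K P : Set (AD K P))) := Subgroup.subset_closure (Or.inl ⟨true, tau_isS⟩)
    have h3 : (tau : AD K P) * φ * tau ∈ Subgroup.closure ((SD K P : Set (AD K P)) ∪
        (UX K P : Set (AD K P))) := by
      refine Subgroup.subset_closure (Or.inr ⟨?_, g, ?_⟩)
      · rw [mul_ap, mul_ap, tau_0, h1, tau_1]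
      · rw [mul_ap, mul_ap, tau_2, h2, map_add, tau_2, map_mul, ap_aeval, tau_1]
    have h4 : φ = (tau : AD K P)⁻¹ * (tau * φ * tau) * tau⁻¹ := by group
    rw [SetLike.mem_coe, h4]
    exact mul_mem (mul_mem (inv_mem ht) h3) (inv_mem ht)

/-- **The theorem.** -/
theorem tame_mem {C : ∀ (G : Type) [Group G], Prop} (hC : Closed C) (hE : ExtClosed C)
    (hS : ∀ (G : Type) [Group G], Group.IsSolvable G → C G) (hP : 3 ≤ P.natDegree) :
    C (Tame K P) := by
  have hP0 : P ≠ 0 := by
    rintro rfl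
    rw [Polynomial.natDegree_zero] at hP
    omega
  have h1 : C (Subgroup.closure ((SD K P : Set (AD K P)) ∪ (UX K P : Set (AD K P)))) := by
    refine grow_mem hC hE hS (SD K P) (UX K P) (TD K P) td_le (hS _ sd_sol) (ux_comm hP0)
      (fun b hb u hu => ux_conj hb hu) actP (fun p => max (dg p 0) (dg p 1))
      {p | dg p 0 < dg p 1} ⟨p0, dg_p0 hP⟩ ?_ ?_ ?_
    · refine ⟨tau, ⟨true, tau_isS⟩, ?_⟩
      rintro ⟨l, m, a, b, hl, hm, ha, h0, h1, h2⟩
      rw [tau_0] at h0
      have h3 := congrArg (fun x => (p0 (K := K) (P := P) x).natDegree) h0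
      have h4 := dg_p0 (K := K) hP
      unfold dg at h4
      have h5 : (p0 (K := K) (P := P) (kk K P l * co K P (if false then 1 else 0))).natDegree =
          (p0 (K := K) (P := P) (co K P 0)).natDegree := by
        rw [map_mul, kk, AlgHom.commutes]
        exact Polynomial.natDegree_C_mul hl
      have h6 : (p0 (K := K) (P := P) (co K P 1)).natDegree =
          (p0 (K := K) (P := P) (co K P 0)).natDegree := h3.trans h5
      omega
    · intro g hg hg' u hu hu1 p hp
      obtain ⟨e1, e2⟩ := dg_isS (isS_of_not hg hg') p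
      change dg (actP g p) 0 = dg p 1 at e1
      change dg (actP g p) 1 = dg p 0 at e2
      have hp' : dg p 0 < dg p 1 := hp
      obtain ⟨e3, e4⟩ := dg_ux hP hu hu1 (actP g p) (by omega)
      refine ⟨?_, ?_⟩
      · change dg (actP u (actP g p)) 0 < dg (actP u (actP g p)) 1
        omega
      · change max (dg p 0) (dg p 1) < max (dg (actP u (actP g p)) 0) (dg (actP u (actP g p)) 1)
        omega
    · rintro g ⟨s, hs⟩ p
      obtain ⟨e1, e2⟩ := dg_isS hs p
      change max (dg (actP g p) 0) (dg (actP g p) 1) = max (dg p 0) (dg p 1)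
      rw [e1, e2]
      cases s
      · rfl
      · exact max_comm _ _
  exact hC.of_injective _ _ (Subgroup.inclusion tame_le) (Subgroup.inclusion_injective tame_le) h1

end Pool.Agent.Q143.DN
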