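import Pool.Agent.Q143.UG.Ind2

/-!
# Table tennis with a growth condition

`G0` and `U` act on a set, `U` is normalised by the subgroup `B` of `G0`; a size function is invariant
under `G0` and grows under `U`. The group generated by `G0` and `U` is the amalgamated product of `G0` and
`U ⋊ B` over `B`.
-/

set_option autoImplicit false
set_option linter.unusedSectionVars false
set_option linter.unusedVariables false

namespace Pool.Agent.Q143.DN

open Monoid Pool.Agent.Y462.SS Pool.Agent.Q152.WP Pool.Agent.Q143.AR Pool.Agent.Q143.MV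
  Pool.Agent.Q143.JN Pool.Agent.Q143.UG

section

variable {G G0 U α : Type} [Group G] [Group G0] [Group U] {B : Subgroup G0}
  {β : B →* MulAut U} {i : G0 →* G} {j : U →* G}

theorem not_mem_of_ne {a b : G0 ⧸ B} (hab : a ≠ b) : (sx B b)⁻¹ * sx B a ∉ B := by
  intro h
  rw [← QuotientGroup.eq, sx_mk, sx_mk] at h
  exact hab h.symm

theorem grow (act : G →* Equiv.Perm α) (m : α → ℕ) (X0 : Set α)
    (h2 : ∀ g, g ∉ B → ∀ u : U, u ≠ 1 → ∀ a ∈ X0, act (j u) (act (i g) a) ∈ X0 ∧
      m a < m (act (j u) (act (i g) a)))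
    (hm : ∀ g a, m (act (i g) a) = m a) {k l : G0 ⧸ B}
    (w : CoprodI.NeWord (fun _ : G0 ⧸ B => U) k l) :
    ∀ c, c ≠ l → ∀ p ∈ X0, m p < m (act (nlift (uu B i j) w.prod) (act (i (sx B c)) p)) ∧
      ∃ q ∈ X0, act (nlift (uu B i j) w.prod) (act (i (sx B c)) p) = act (i (sx B k)) q := by
  classical
  induction w with
  | singleton x hx =>
    rename_i k
    intro c hc p hp
    have h3 := h2 _ (not_mem_of_ne (B := B) hc) x hx p hp
    have h4 : act (nlift (uu B i j)
        (CoprodI.NeWord.singleton x hx : CoprodI.NeWord (fun _ : G0 ⧸ B => U) k k).prod)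
        (act (i (sx B c)) p) =
        act (i (sx B k)) (act (j x) (act (i ((sx B k)⁻¹ * sx B c)) p)) := by
      rw [CoprodI.NeWord.prod_singleton]
      change act (nlift (uu B i j) (nof U k x)) _ = _
      rw [nlift_of, uu_apply, map_mul i, map_inv i]
      simp only [map_mul, map_inv, Equiv.Perm.mul_apply]
    rw [h4, hm]
    exact ⟨h3.2, _, h3.1, rfl⟩
  | append w1 hne w2 ih1 ih2 =>
    intro c hc p hp
    obtain ⟨h3, q, hq, h4⟩ := ih2 c hc p hp
    obtain ⟨h5, q', hq', h6⟩ := ih1 _ hne.symm q hq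
    rw [CoprodI.NeWord.append_prod, map_mul, map_mul, Equiv.Perm.mul_apply, h4]
    rw [h4, hm] at h3
    exact ⟨h3.trans h5, q', hq', h6⟩

theorem grow_inj (hβ : ∀ (b : B) u, j (β b u) = i b * j u * (i b)⁻¹)
    (hi : Function.Injective i) (act : G →* Equiv.Perm α) (m : α → ℕ) (X0 : Set α)
    (hX0 : X0.Nonempty) (hne : ∃ g, g ∉ B)
    (h2 : ∀ g, g ∉ B → ∀ u : U, u ≠ 1 → ∀ a ∈ X0, act (j u) (act (i g) a) ∈ X0 ∧
      m a < m (act (j u) (act (i g) a)))
    (hm : ∀ g a, m (act (i g) a) = m a) :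
    Function.Injective (Ph hβ (MonoidHom.id G0)) := by
  classical
  refine (injective_iff_map_eq_one _).2 (fun g hg => ?_)
  have h1 : Ph hβ (MonoidHom.id G0) g = nlift (uu B i j) g.left * i g.right := rfl
  rw [h1] at hg
  by_cases hw : g.left = 1
  · rw [hw, map_one, one_mul] at hg
    have h3 : g.right = 1 := hi (hg.trans (map_one i).symm)
    exact SemidirectProduct.ext hw h3
  · exfalso
    have hw' : CoprodI.Word.equiv g.left ≠ CoprodI.Word.empty := by
      intro h
      apply hw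
      have h3 := CoprodI.Word.equiv.symm_apply_apply g.left
      rw [h] at h3
      rw [← h3]
      rfl
    obtain ⟨k, l, nw, hnw⟩ := CoprodI.NeWord.of_word _ hw'
    have hprod : nw.prod = g.left := by
      have h3 := CoprodI.Word.equiv.symm_apply_apply g.left
      rw [← hnw] at h3
      exact h3
    obtain ⟨g1, hg1⟩ := hne
    have hc : ∃ c : G0 ⧸ B, c ≠ l := by
      by_cases hl : ((1 : G0) : G0 ⧸ B) = l
      · refine ⟨(g1 : G0 ⧸ B), ?_⟩
        rw [← hl]
        intro h
        rw [eq_comm, QuotientGroup.eq, inv_one, one_mul] at h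
        exact hg1 h
      · exact ⟨_, hl⟩
    obtain ⟨c, hc⟩ := hc
    obtain ⟨p, hp⟩ := hX0
    have h4 := (grow act m X0 h2 hm nw c hc p hp).1
    rw [hprod] at h4
    have h5 : nlift (uu B i j) g.left = i g.right⁻¹ := by
      rw [map_inv]
      exact eq_inv_of_mul_eq_one_left hg
    rw [h5, hm, hm] at h4
    exact lt_irrefl _ h4

variable {C : ∀ (G : Type) [Group G], Prop}

/-- the class of the abstract group -/
theorem tw_sol (hC : Closed C) (hE : ExtClosed C)
    (hS : ∀ (G : Type) [Group G], Group.IsSolvable G → C G) (hU : Group.IsSolvable U)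
    (hG0 : C G0) : C ((tw B β).pull (MonoidHom.id G0)).TW := by
  classical
  rw [perm_mem _ hC hE]
  refine ⟨hG0, fun x => ?_⟩
  set T := (tw B β).pull (MonoidHom.id G0) with hT
  have h3 : ∀ w ∈ vx T x, ∃ k : U, ∃ q : G0, w = T.e x k * T.r q ∧ q ∈ stb T x := by
    intro w hw
    induction hw using Subgroup.closure_induction with
    | mem w hw =>
      rcases hw with ⟨k, rfl⟩ | ⟨q, hq, rfl⟩
      · exact ⟨k, 1, by rw [map_one, mul_one], one_mem _⟩
      · exact ⟨1, q, by rw [map_one, one_mul], hq⟩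
    | one => exact ⟨1, 1, by rw [map_one, map_one, mul_one], one_mem _⟩
    | mul a b _ _ ha hb =>
      obtain ⟨k, q, rfl, hq⟩ := ha
      obtain ⟨k', q', rfl, hq'⟩ := hb
      have h5 := T.rel q x k'
      have h6 : T.a q x = x := hq
      rw [h6] at h5
      refine ⟨k * T.c q x k', q * q', ?_, mul_mem hq hq'⟩
      rw [map_mul, map_mul, ← h5]
      group
    | inv a _ ha =>
      obtain ⟨k, q, rfl, hq⟩ := ha
      have h5 := T.rel q⁻¹ x k⁻¹
      have h6 : T.a q⁻¹ x = x := inv_mem hq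
      rw [h6] at h5
      refine ⟨T.c q⁻¹ x k⁻¹, q⁻¹, ?_, inv_mem hq⟩
      rw [← h5, map_inv, map_inv]
      group
  refine sol_ext hC hE hS (SemidirectProduct.rightHom.comp (vx T x).subtype) ?_ hG0
  haveI := hU
  let g : U →* (SemidirectProduct.rightHom.comp (vx T x).subtype).ker :=
    { toFun := fun k => ⟨⟨T.e x k, e_mem_vx x k⟩, rfl⟩
      map_one' := Subtype.ext (Subtype.ext (map_one _))
      map_mul' := fun a b => Subtype.ext (Subtype.ext (map_mul _ _ _)) }
  refine Group.isSolvable_of_surjective (f := g) ?_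
  rintro ⟨⟨w, hw⟩, hw1⟩
  obtain ⟨k, q, rfl, hq⟩ := h3 w hw
  have h4 : (T.e x k * T.r q).right = 1 := hw1
  have h5 : (T.e x k * T.r q).right = q := by
    change (1 : G0) * q = q
    rw [one_mul]
  rw [h5] at h4
  refine ⟨k, Subtype.ext (Subtype.ext ?_)⟩
  change T.e x k = T.e x k * T.r q
  rw [h4, map_one, mul_one]

theorem le_range (hβ : ∀ (b : B) u, j (β b u) = i b * j u * (i b)⁻¹) :
    Subgroup.closure (Set.range i ∪ Set.range j) ≤ (Ph hβ (MonoidHom.id G0)).range := by
  refine (Subgroup.closure_le _).2 ?_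
  rintro _ (⟨q, rfl⟩ | ⟨u, rfl⟩)
  · refine ⟨((tw B β).pull (MonoidHom.id G0)).r q, ?_⟩
    exact Twist.lift_r _ _ _ _ _
  · let x : G0 ⧸ B := ((1 : G0) : G0 ⧸ B)
    have h1 : ∀ v, ((Ph hβ (MonoidHom.id G0))
        (((tw B β).pull (MonoidHom.id G0)).e x v)) = uu B i j x v :=
      fun v => Twist.lift_e _ _ _ _ _ _
    have h2 : i (sx B x) ∈ (Ph hβ (MonoidHom.id G0)).range :=
      ⟨((tw B β).pull (MonoidHom.id G0)).r (sx B x), Twist.lift_r _ _ _ _ _⟩
    have h3 : j u = (i (sx B x))⁻¹ * uu B i j x u * i (sx B x) := by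
      rw [uu_apply]
      group
    rw [SetLike.mem_coe, h3]
    exact mul_mem (mul_mem (inv_mem h2) ⟨_, h1 u⟩) h2

end

variable {C : ∀ (G : Type) [Group G], Prop}

/-- the version for subgroups -/
theorem grow_mem {G α : Type} [Group G] (hC : Closed C) (hE : ExtClosed C)
    (hS : ∀ (G : Type) [Group G], Group.IsSolvable G → C G) (G0 U B : Subgroup G) (hB : B ≤ G0)
    (hG0 : C G0) (hUs : Group.IsSolvable U) (hU : ∀ b ∈ B, ∀ u ∈ U, b * u * b⁻¹ ∈ U)
    (act : G →* Equiv.Perm α) (m : α → ℕ) (X0 : Set α) (hX0 : X0.Nonempty)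
    (hne : ∃ g ∈ G0, g ∉ B)
    (h2 : ∀ g ∈ G0, g ∉ B → ∀ u ∈ U, u ≠ 1 → ∀ a ∈ X0, act u (act g a) ∈ X0 ∧
      m a < m (act u (act g a)))
    (hm : ∀ g ∈ G0, ∀ a, m (act g a) = m a) :
    C (Subgroup.closure ((G0 : Set G) ∪ (U : Set G))) := by
  let B' : Subgroup G0 := B.subgroupOf G0
  let β : B' →* MulAut U :=
    { toFun := fun b => 
        { toFun := fun u => ⟨b.1.1 * u.1 * b.1.1⁻¹, hU b.1.1 b.2 u.1 u.2⟩
          invFun := fun u => ⟨b.1.1⁻¹ * u.1 * (b.1.1⁻¹)⁻¹, hU _ (inv_mem b.2) u.1 u.2⟩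
          left_inv := fun u => Subtype.ext (by
            change b.1.1⁻¹ * (b.1.1 * u.1 * b.1.1⁻¹) * (b.1.1⁻¹)⁻¹ = u.1
            group)
          right_inv := fun u => Subtype.ext (by
            change b.1.1 * (b.1.1⁻¹ * u.1 * (b.1.1⁻¹)⁻¹) * b.1.1⁻¹ = u.1
            group)
          map_mul' := fun u v => Subtype.ext (by
            change b.1.1 * (u.1 * v.1) * b.1.1⁻¹ = (b.1.1 * u.1 * b.1.1⁻¹) *
              (b.1.1 * v.1 * b.1.1⁻¹)
            group) }
      map_one' := by
        ext u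
        change (1 : G) * u.1 * (1 : G)⁻¹ = u.1
        group
      map_mul' := fun b b' => by
        ext u
        change (b.1.1 * b'.1.1) * u.1 * (b.1.1 * b'.1.1)⁻¹ =
          b.1.1 * (b'.1.1 * u.1 * b'.1.1⁻¹) * b.1.1⁻¹
        group }
  have hβ : ∀ (b : B') u, U.subtype (β b u) = G0.subtype b * U.subtype u * (G0.subtype b)⁻¹ :=
    fun b u => rfl
  have hinj := grow_inj (i := G0.subtype) (j := U.subtype) (B := B') hβ
    (Subgroup.subtype_injective _) act m X0 hX0 (by
      obtain ⟨g, hg, hg'⟩ := hne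
      exact ⟨⟨g, hg⟩, fun h => hg' h⟩)
    (fun g hg u hu a ha => h2 g.1 g.2 (fun h => hg h) u.1 u.2 (fun h => hu (Subtype.ext h)) a ha)
    (fun g a => hm g.1 g.2 a)
  have h3 := tw_sol (B := B') (β := β) hC hE hS hUs hG0
  have h4 := le_range (i := G0.subtype) (j := U.subtype) (B := B') hβ
  have h5 : C (Ph hβ (MonoidHom.id G0)).range := by
    refine hC.of_injective _ _ (MonoidHom.ofInjective hinj).symm.toMonoidHom ?_ h3
    exact (MonoidHom.ofInjective hinj).symm.injective
  have h6 : Subgroup.closure ((G0 : Set G) ∪ (U : Set G)) ≤ (Ph hβ (MonoidHom.id G0)).range := by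
    have h7 : Set.range G0.subtype = (G0 : Set G) := by
      ext g
      simp
    have h8 : Set.range U.subtype = (U : Set G) := by
      ext g
      simp
    rw [← h7, ← h8]
    exact h4
  exact hC.of_injective _ _ (Subgroup.inclusion h6) (Subgroup.inclusion_injective h6) h5

end Pool.Agent.Q143.DN
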